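import Pool.Agent.OZ.E
import Pool.Agent.OT.DcD

/-!
# An explicit basis of the identities of the Cayley-Dickson algebra in every prime characteristic

`Basis F p` is described by recursions on lists of words; the identities of the octonions are not used in its definition.
For `p ≥ 3` it is the union of the sets `Bas F d` of the module `Pool.Agent.OZ.Def`: the two alternative laws, and all
`Psi n f`, `n ≥ 4`, where `f` runs over the multilinear instances, in the variables `x_0, .., x_(n-1)`, of the laws of the
alternative algebras with involution `x_i* = - x_i` and central and nuclear traces `u + u*`.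
For `p = 2` it consists of all `psi l` (module `Pool.Agent.OT.Dc`), where `l` runs over the instances of the laws of the
alternative algebras with involution with central and nuclear `u + u*` and `u u*`, in the letters `x_i` and `t_i = x_i + x_i*`.
-/

set_option autoImplicit false

namespace Pool.Agent.Results.MP_41922c_al.ExplicitBasis

open Pool.Agent.OB Pool.Agent.H.MP_41922c_al FreeNonUnitalNonAssocAlgebra

/-- the explicit basis in characteristic `p` -/
noncomputable def Basis (F : Type*) [Field F] (p : ℕ) : Set (FreeNonUnitalNonAssocAlgebra F ℕ) :=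
  if p = 2 then {f | ∃ l, Pool.Agent.OT.Q.Law l ∧ f = (List.map (Pool.Agent.OZ.mn F) (List.flatMap Pool.Agent.OT.Q.psi l)).sum}
  else ⋃ d : ℕ, Pool.Agent.OZ.Bas F d

theorem Basis_two (F : Type*) [Field F] : Basis F 2 = Pool.Agent.OT.BasC F := by
  have h : Pool.Agent.OZ.mn F = mo F := funext Pool.Agent.OZ.mn_eq
  rw [Basis, if_pos rfl, h]
  rfl

/-- **An explicit basis of identities of the Cayley-Dickson algebra over an infinite field of prime characteristic.** -/
theorem result {p : ℕ} [Fact p.Prime] {F : Type*} [Field F] [CharP F p] [Infinite F]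
    {ν β γ : F} (h : (1 - 4 * ν) * β * γ ≠ 0) (f : FreeNonUnitalNonAssocAlgebra F ℕ) :
    IsIdentity F (CD F ν β γ) f ↔ f ∈ tIdeal F (Basis F p) := by
  rw [id_iff_cd h f]
  by_cases hp : p = 2
  · subst hp
    have h2 : (2 : F) = 0 := by
      have := (CharP.cast_eq_zero_iff F 2 2).2 (dvd_refl 2)
      exact_mod_cast this
    rw [Basis_two]
    exact Pool.Agent.OT.main2C h2 f
  · have h2 : (2 : F) ≠ 0 := by
      intro h
      have h' : ((2 : ℕ) : F) = 0 := by exact_mod_cast h
      rw [CharP.cast_eq_zero_iff F p, Nat.dvd_prime Nat.prime_two] at h'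
      rcases h' with h' | h'
      · exact (Fact.out : p.Prime).one_lt.ne' h'
      · exact hp h'
    rw [Basis, if_neg hp]
    exact Pool.Agent.OZ.mainZ_all h2 f

end Pool.Agent.Results.MP_41922c_al.ExplicitBasis
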