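import Pool.Agent.OZ.E
import Pool.Agent.OB.Xfer

/-!
# A finite basis of the identities of the Cayley-Dickson algebra in characteristic `p ≥ 11`

`Bas F 9` (module `Pool.Agent.OZ.Def`) consists of the two alternative laws and of the polynomials `Psi n f`, `4 ≤ n ≤ 9`,
where `f` runs over the multilinear instances, in the variables `x_0, .., x_(n-1)`, of the laws of the alternative algebras
with involution `x_i* = - x_i` and central and nuclear traces `u + u*`. It is finite in characteristic `p`, and it is a
basis of the identities of the octonion algebras over the infinite fields of characteristic `p ≥ 11`.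
-/

set_option autoImplicit false

namespace Pool.Agent.Results.MP_41922c_al.FiniteBasis

open Pool.Agent.OB Pool.Agent.H.MP_41922c_al FreeNonUnitalNonAssocAlgebra

/-- **A finite basis of identities of the Cayley-Dickson algebra over every infinite field of characteristic `p ≥ 11`.** -/
theorem result {p : ℕ} [Fact p.Prime] (hp : 11 ≤ p) {F : Type*} [Field F] [CharP F p] [Infinite F]
    {ν β γ : F} (h : (1 - 4 * ν) * β * γ ≠ 0) :
    (Pool.Agent.OZ.Bas F 9).Finite ∧ ∀ f : FreeNonUnitalNonAssocAlgebra F ℕ,
      IsIdentity F (CD F ν β γ) f ↔ f ∈ tIdeal F (Pool.Agent.OZ.Bas F 9) := by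
  refine ⟨Pool.Agent.OZ.Bas_finite (p := p) 9, fun f => ?_⟩
  rw [id_iff_cd h f]
  refine Pool.Agent.OZ.mainZ_11 ?_ f
  intro h0
  rw [CharP.cast_eq_zero_iff F p, (Fact.out : p.Prime).dvd_factorial] at h0
  omega

end Pool.Agent.Results.MP_41922c_al.FiniteBasis
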