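import Pool.Agent.H.MP_41922c_al.Converse

/-!
# The identities of the Cayley-Dickson algebras, up to torsion over a central polynomial

`S0 F` is an explicit set of eight identities of the octonions: the two alternative laws and the
six identities which say that the three polynomials

* `δ = [u, v]²`,
* `τ(x) = [x ∘ u, v] [u, v]`,
* `ν(x) = τ(x) x - δ x²`, where `u = [x₀, x₁]`, `v = [x₂, x₃]`,

are central. Let `c = δ (τ(u v) (ν(u) ν((u, v, x₄))))`, a central polynomial of the octonions.
Over every infinite field, of any characteristic, a polynomial `f` is an identity of the octonion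
algebras if and only if `c^k f` is a consequence of `S0 F` for some `k`.
-/

set_option autoImplicit false

namespace Pool.Agent.Results.MP_41922c_al.Saturation

open Pool.Agent.H.MP_41922c_al FreeNonUnitalNonAssocAlgebra

/-- **The T-ideal of the Cayley-Dickson algebra is the saturation of an explicit finitely based
T-ideal with respect to an explicit central polynomial.** -/
theorem result (F : Type*) [Field F] [Infinite F] (ν β γ : F) (h : (1 - 4 * ν) * β * γ ≠ 0)
    (f : FreeNonUnitalNonAssocAlgebra F ℕ) :
    List.TFAE [IsIdentity F (CD F ν β γ) f,
      ∃ k : ℕ, ∀ a b c d s : FreeNonUnitalNonAssocAlgebra F ℕ,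
        (fun y => cc a b c d s * y)^[k] f ∈ tIdeal F (S0 F),
      ∃ k : ℕ, (fun y => cc (of F 0) (of F 1) (of F 2) (of F 3) (of F 4) * y)^[k] f ∈
        tIdeal F (S0 F)] :=
  main_tfae h f

end Pool.Agent.Results.MP_41922c_al.Saturation
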