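import Pool.Agent.Smt.Class

/-!
# A basis of the identities with involution of the Cayley-Dickson algebras; T(C) by six identities

`SS F` is a set of six polynomials with involution: the two alternative laws, and the four
identities which say that `x + x*` and `x x*` commute and associate with all elements. Over every
infinite field, of any characteristic (2 included), they form a basis of the identities with
involution of the octonion algebras. Hence the ordinary identities of the octonion algebras are
exactly the common identities of all alternative algebras which have an involution with central
traces `x + x*` and norms `x x*`, and exactly the polynomials without stars that are consequences of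
the six identities.
-/

set_option autoImplicit false

namespace Pool.Agent.Results.MP_41922c_al.StarIdentities

open Pool.Agent.H.MP_41922c_al Pool.Agent.Smt FreeNonUnitalNonAssocAlgebra

universe u

/-- **All identities of the Cayley-Dickson algebras over infinite fields of any characteristic,
with or without involution, follow from the alternative laws and the centrality of the traces and
norms.** -/
theorem result (F : Type u) [Field F] [Infinite F] (ν β γ : F) (h : (1 - 4 * ν) * β * γ ≠ 0) :
    (∀ f : FS F, IsStarIdentity ν β γ f ↔ f ∈ starTIdeal F (SS F)) ∧
    ∀ f : FreeNonUnitalNonAssocAlgebra F ℕ, List.TFAE [IsIdentity F (CD F ν β γ) f,
      ∀ (A : Type u) [NonUnitalNonAssocRing A] [Module F A] [IsScalarTower F A A]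
        [SMulCommClass F A A] (σ : A →ₗ[F] A), IsCentralInv F A σ → IsIdentity F A f,
      unst F f ∈ starTIdeal F (SS F)] :=
  ⟨main h, main_tfae_ord h⟩

end Pool.Agent.Results.MP_41922c_al.StarIdentities
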